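import Pool.Agent.H7.FinalDI
import Pool.Agent.H7.Variety

/-!
# The ring of `Pool.Agent.H7.FinalDI` is not directly finite
-/

namespace Pool.Agent.H89.INS

open Pool.Agent.H7
open Matrix Filter Topology

/-- As `Pool.Agent.H7.exists_of_extension`, with elements `x, y` such that `x y = 1` and `y x ≠ 1`. -/
theorem exists_of_extension_di {E Q : Type} [Ring E] [StarRing E] [Ring Q] (π : E →+* Q)
    (hπ : Function.Surjective π) (D : Subring Q)
    (hD : ∀ q ∈ D, q = 0 ∨ ∃ q' ∈ D, q * q' = 1 ∧ q' * q = 1)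
    (hstar : ∀ x : E, π x ∈ D → π (star x) ∈ D)
    (hI : ∀ x, π x = 0 → ∃ g, π g = 0 ∧ x * g * x = x)
    (hprop : ∀ x : E, star x * x = 0 → x = 0)
    (Y : E) (hY : π Y ∈ D) (hYinj : ∀ x, Y * x = 0 → x = 0) (hYns : ∀ x, Y * x ≠ 1) :
    ∃ (R : Type) (_ : Ring R) (_ : StarRing R), (∀ a : R, ∃ x : R, a * x * a = a) ∧
      (∀ x : R, star x * x = 0 → x = 0) ∧ (∃ x y : R, x * y = 1 ∧ y * x ≠ 1) ∧
      ∃ emb : R →+* E, Function.Injective emb ∧ (∀ x, emb (star x) = star (emb x)) ∧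
        (∀ y, π y ∈ D → ∃ x, emb x = y) ∧
        ∀ x : R, π (emb x) ≠ 0 → ∃ y : R, π (emb (x * y - 1)) = 0 ∧ π (emb (y * x - 1)) = 0 := by
  let R := D.comap π
  let inst : StarRing R :=
    { star := fun x => ⟨star x.1, hstar _ x.2⟩
      star_involutive := fun x => Subtype.ext (star_star x.1)
      star_mul := fun x y => Subtype.ext (star_mul x.1 y.1)
      star_add := fun x y => Subtype.ext (star_add x.1 y.1) }
  have hreg : ∀ a : R, ∃ x : R, a * x * a = a := by
    rintro ⟨a, ha⟩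
    rcases hD _ ha with h0 | ⟨q', hq', h1, h2⟩
    · obtain ⟨g, hg, hag⟩ := hI a h0
      refine ⟨⟨g, ?_⟩, Subtype.ext hag⟩
      show π g ∈ D
      rw [hg]
      exact D.zero_mem
    · obtain ⟨x₀, rfl⟩ := hπ q'
      obtain ⟨g, hg, hag⟩ := hI (a - a * x₀ * a) (by
        rw [map_sub, map_mul, map_mul, h1, one_mul, sub_self])
      refine ⟨⟨x₀ + (1 - x₀ * a) * g * (1 - a * x₀), ?_⟩, Subtype.ext ?_⟩
      · show π _ ∈ D
        rw [map_add, map_mul, map_mul, hg, mul_zero, zero_mul, add_zero]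
        exact hq'
      · show a * (x₀ + (1 - x₀ * a) * g * (1 - a * x₀)) * a = a
        have e : a * (x₀ + (1 - x₀ * a) * g * (1 - a * x₀)) * a =
            a * x₀ * a + (a - a * x₀ * a) * g * (a - a * x₀ * a) := by noncomm_ring
        rw [e, hag]
        abel
  refine ⟨R, inferInstance, inst, hreg, ?_, ?_, R.subtype, Subtype.val_injective,
    fun _ => rfl, fun y hy => ⟨⟨y, hy⟩, rfl⟩, ?_⟩
  · rintro ⟨x, hx⟩ h
    exact Subtype.ext (hprop x (congrArg Subtype.val h))
  · obtain ⟨x, hx⟩ := hreg ⟨Y, hY⟩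
    refine ⟨x, ⟨Y, hY⟩, ?_, ?_⟩
    · have h1 : Y * x.1 * Y = Y := congrArg Subtype.val hx
      have h2 : x.1 * Y - 1 = 0 := by
        apply hYinj
        rw [mul_sub, mul_one, ← mul_assoc, h1, sub_self]
      exact Subtype.ext (sub_eq_zero.1 h2)
    · intro e
      exact hYns x.1 (congrArg Subtype.val e)
  · rintro ⟨x, hx⟩ hne
    rcases hD _ hx with h0 | ⟨q', hq', h1, h2⟩
    · exact absurd h0 hne
    · obtain ⟨y, rfl⟩ := hπ q'
      refine ⟨⟨y, hq'⟩, ?_, ?_⟩
      · show π (x * y - 1) = 0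
        rw [map_sub, map_mul, h1, map_one, sub_self]
      · show π (y * x - 1) = 0
        rw [map_sub, map_mul, h2, map_one, sub_self]

/-- The *-regular ring of helper7, with elements `x, y` such that `x y = 1` and `y x ≠ 1`, and with
the homomorphism onto a division ring given by `piE`. -/
theorem exists_ring_di (l : Filter ℕ) [l.NeBot] (hl : l ≤ atTop) :
    ∃ (R : Type) (_ : Ring R) (_ : StarRing R), (∀ a : R, ∃ x : R, a * x * a = a) ∧
      (∀ x : R, star x * x = 0 → x = 0) ∧ (∃ x y : R, x * y = 1 ∧ y * x ≠ 1) ∧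
      ∃ emb : R →+* EvProd l Ej, Function.Injective emb ∧ (∀ x, emb (star x) = star (emb x)) ∧
        (∀ y, piE l y = 0 → ∃ x, emb x = y) ∧
        ∀ x : R, piE l (emb x) ≠ 0 → ∃ y : R, piE l (emb (x * y - 1)) = 0 ∧
          piE l (emb (y * x - 1)) = 0 := by
  obtain ⟨d⟩ := nonempty_data
  have hinv : ∀ q ∈ entrySubring (goodFam d l hl), q = 0 ∨
      ∃ q' ∈ entrySubring (goodFam d l hl), q * q' = 1 ∧ q' * q = 1 := fun q hq =>
    isEntry_inv (goodFam d l hl) hq
  have hYmem : piE l (EvProd.mk l Ej (Yj d)) ∈ entrySubring (goodFam d l hl) := by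
    have h : piE l (EvProd.mk l Ej (Yj d)) = rho d l (FreeAlgebra.ι ℤ 0) := by
      rw [piE_mk, rho_apply]
      congr 1
      funext j
      exact (rj_zero d j).symm
    rw [h]
    exact isEntry_map (goodFam d l hl) _
  have hYinj : ∀ x, EvProd.mk l Ej (Yj d) * x = 0 → x = 0 := by
    intro x hx
    obtain ⟨x, rfl⟩ := EvProd.mk_surjective x
    rw [← map_mul, EvProd.mk_eq_zero_iff] at hx
    rw [EvProd.mk_eq_zero_iff]
    refine hx.mono fun j hj => ?_
    obtain ⟨L, hL⟩ := Yj_left_inv d j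
    have hj' : Yj d j * x j = 0 := hj
    calc x j = L * Yj d j * x j := by rw [hL, one_mul]
      _ = 0 := by rw [mul_assoc, hj', mul_zero]
  have hYns : ∀ x, EvProd.mk l Ej (Yj d) * x ≠ 1 := by
    intro x hx
    obtain ⟨x, rfl⟩ := EvProd.mk_surjective x
    rw [← map_mul, ← map_one (EvProd.mk l Ej), EvProd.mk_eq_iff] at hx
    obtain ⟨j, hj⟩ := hx.exists
    exact Yj_not_right_inv d j (x j) hj
  have key := exists_of_extension_di (piE l) piE_surjective (entrySubring (goodFam d l hl)) hinv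
    ?_ ?_ ?_ (EvProd.mk l Ej (Yj d)) hYmem hYinj hYns
  · obtain ⟨R, i1, i2, h1, h2, h3, emb, h4, h5, h6, h7⟩ := key
    refine ⟨R, i1, i2, h1, h2, h3, emb, h4, h5, fun y hy => h6 y ?_, h7⟩
    rw [hy]
    exact Subring.zero_mem _
  · intro x hx
    rw [piE_star]
    exact isEntry_star sF (rho_sF d) (fun ι _ _ A hA => good_star hA) hx
  · intro x hx
    obtain ⟨x, rfl⟩ := EvProd.mk_surjective x
    rw [piE_mk, EvProd.mk_eq_zero_iff] at hx
    have h : ∀ j, ∃ g : Ej j, pj j (x j) = 0 → pj j g = 0 ∧ x j * g * x j = x j := by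
      intro j
      by_cases hj : pj j (x j) = 0
      · have : Nonempty (Fin (sz j)) := ⟨zj j⟩
        obtain ⟨g, hg, hgx⟩ := matrix_quasi_inverse (k := ℂ) eS_mul_eS star_eS eS_rank_one
          Bd_proper (f := x j) (fun i k => qmk_eq_zero_iff.1 (congrFun (congrFun hj i) k))
        refine ⟨g, fun _ => ⟨?_, hgx⟩⟩
        ext1 i k
        exact qmk_eq_zero_iff.2 (hg i k)
      · exact ⟨0, fun h => absurd h hj⟩
    choose g hg using h
    refine ⟨EvProd.mk l Ej g, ?_, ?_⟩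
    · rw [piE_mk, EvProd.mk_eq_zero_iff]
      exact hx.mono fun j hj => (hg j hj).1
    · rw [← map_mul, ← map_mul, EvProd.mk_eq_iff]
      exact hx.mono fun j hj => (hg j hj).2
  · intro x hx
    obtain ⟨x, rfl⟩ := EvProd.mk_surjective x
    rw [EvProd.star_mk, ← map_mul, EvProd.mk_eq_zero_iff] at hx
    rw [EvProd.mk_eq_zero_iff]
    exact hx.mono fun j hj => matrix_proper Bd_proper (x j) hj

end Pool.Agent.H89.INS
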